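import Mathlib

namespace Pool.Agent.H.MP_b0da28_lc

open Set Filter Topology

abbrev B := ℕ → ℕ

def In (u : List ℕ) (a : B) : Prop := ∀ i (h : i < u.length), u[i] = a i

def tk (a : B) (k : ℕ) : List ℕ := (List.range k).map a

@[simp] theorem tk_len (a : B) (k : ℕ) : (tk a k).length = k := by simp [tk]

theorem in_tk (a b : B) (k : ℕ) : In (tk a k) b ↔ ∀ i, i < k → a i = b i := by
  simp [In, tk]

theorem In.mono {u v : List ℕ} {a : B} (h : In v a) (huv : u <+: v) : In u a := by
  intro i hi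
  rw [← h i (lt_of_lt_of_le hi huv.length_le)]
  exact huv.getElem hi

theorem in_snoc (u : List ℕ) (c : ℕ) (a : B) : In (u ++ [c]) a ↔ In u a ∧ a u.length = c := by
  constructor
  · intro h
    refine ⟨h.mono (List.prefix_append _ _), ?_⟩
    have := h u.length (by simp)
    simpa using this.symm
  · rintro ⟨h1, h2⟩ i hi
    by_cases h : i < u.length
    · rw [List.getElem_append_left h]; exact h1 i h
    · have : i = u.length := by simp at hi; omega
      subst this
      simp [h2]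

theorem In.agree {u : List ℕ} {a b : B} (ha : In u a) (hb : In u b) (i : ℕ) (hi : i < u.length) :
    a i = b i := (ha i hi).symm.trans (hb i hi)

theorem In.ext_tk {u : List ℕ} {a : B} (ha : In u a) (l : ℕ) :
    ∃ r, u ++ r = tk a (u.length + l) := by
  have : u <+: tk a (u.length + l) := by
    rw [List.prefix_iff_getElem]
    refine ⟨by simp, fun i hi => ?_⟩
    simp [tk, ha i hi]
  exact this

def pt (u : List ℕ) : B := fun i => u.getD i 0

theorem in_pt (u : List ℕ) : In u (pt u) := by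
  intro i hi
  simp [pt, List.getElem?_eq_getElem hi]

theorem chain (l : ℕ → List ℕ) (h : ∀ k, l k <+: l (k + 1)) : ∃ a, ∀ k, In (l k) a := by
  classical
  have hm : ∀ j k, j ≤ k → l j <+: l k := by
    intro j k hjk
    induction hjk with
    | refl => exact List.prefix_rfl
    | step _ ih => exact ih.trans (h _)
  refine ⟨fun i => if hi : ∃ k, i < (l k).length then pt (l hi.choose) i else 0, fun k i hi => ?_⟩
  have he : ∃ k, i < (l k).length := ⟨k, hi⟩
  simp only [he, dif_pos]
  have h1 := he.choose_spec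
  rw [← in_pt _ i h1]
  rcases le_total k he.choose with h2 | h2
  · exact (hm _ _ h2).getElem hi
  · exact ((hm _ _ h2).getElem h1).symm

theorem dep_open (P : B → Prop) (k : ℕ) (h : ∀ x y, (∀ i, i ≤ k → x i = y i) → P x → P y) :
    IsOpen {x | P x} := by
  rw [isOpen_iff_mem_nhds]
  intro x hx
  have : ∀ᶠ y in 𝓝 x, ∀ i ∈ Finset.range (k + 1), x i = y i := by
    rw [eventually_all_finset]
    intro i _
    have : Continuous fun y : B => y i := continuous_apply i
    exact ((isOpen_discrete {x i}).preimage this).mem_nhds rfl |> fun h' =>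
      mem_of_superset h' fun y hy => (show y i = x i from hy).symm
  filter_upwards [this] with y hy
  exact h x y (fun i hi => hy i (Finset.mem_range.2 (by omega))) hx

theorem nhds_cyl {x : B} {O : Set B} (h : O ∈ 𝓝 x) :
    ∃ K, ∀ y, (∀ i, i ≤ K → y i = x i) → y ∈ O := by
  obtain ⟨V, hV, hVo, hx⟩ := mem_nhds_iff.1 h
  obtain ⟨I, u, hu, hI⟩ := isOpen_pi_iff.1 hVo x hx
  refine ⟨I.sup id, fun y hy => hV (hI fun i hi => ?_)⟩
  rw [hy i (Finset.le_sup (f := id) hi)]
  exact (hu i hi).2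

theorem open_in (u : List ℕ) : IsOpen {a | In u a} :=
  dep_open _ u.length fun x y h hx i hi => by rw [← h i hi.le]; exact hx i hi

def code (x : B) (k : ℕ) : ℕ := Nat.pair k (Encodable.encode (tk x k))

theorem le_code (x : B) (k : ℕ) : k ≤ code x k := Nat.left_le_pair _ _

theorem code_inj {x y : B} {j k : ℕ} (h : code x j = code y k) :
    ∀ i, i < j → x i = y i := by
  obtain ⟨rfl, h2⟩ := Nat.pair_eq_pair.1 h
  have := Encodable.encode_injective h2
  rw [← in_tk, this, in_tk]
  intro _ _; rfl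

theorem code_congr {x y : B} {k : ℕ} (h : ∀ i, i < k → x i = y i) : code x k = code y k := by
  unfold code tk
  congr 2
  exact List.map_congr_left fun i hi => h i (List.mem_range.1 hi)

abbrev L3 := List ℕ × List ℕ × List ℕ

def dec (n : ℕ) : L3 := Denumerable.ofNat L3 n

theorem dec_surj (p : L3) : ∃ n, dec n = p := ⟨Encodable.encode p, Denumerable.ofNat_encode p⟩

structure St where
  h : List ℕ
  u1 : List ℕ
  u2 : List ℕ
  v : List ℕ

def tt (x : B) : List ℕ := (dec (x 0)).2.2

def base (s : St) (d c : ℕ) : List ℕ := (if d % 3 = 1 then s.u1 else s.u2) ++ [c]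

def step (t : List ℕ) (s : St) (d c : ℕ) : St :=
  if d % 3 = 0 then ⟨s.h, s.u1, s.u2, s.v ++ [d / 3]⟩ else
    ⟨base s d c, base s d c ++ (dec (d / 3)).1, base s d c ++ (dec (d / 3)).2.1, t ++ [c]⟩

def st (x : B) : ℕ → St
  | 0 => ⟨[], (dec (x 0)).1, (dec (x 0)).2.1, tt x⟩
  | k + 1 => step (tt x) (st x k) (x (k + 1)) (code x (k + 1))

theorem st_stay {x : B} {k : ℕ} (h : x (k + 1) % 3 = 0) : st x (k + 1) =
    ⟨(st x k).h, (st x k).u1, (st x k).u2, (st x k).v ++ [x (k + 1) / 3]⟩ := by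
  simp [st, step, h]

theorem st_ret {x : B} {k : ℕ} (h : x (k + 1) % 3 ≠ 0) : st x (k + 1) =
    ⟨base (st x k) (x (k + 1)) (code x (k + 1)),
      base (st x k) (x (k + 1)) (code x (k + 1)) ++ (dec (x (k + 1) / 3)).1,
      base (st x k) (x (k + 1)) (code x (k + 1)) ++ (dec (x (k + 1) / 3)).2.1,
      tt x ++ [code x (k + 1)]⟩ := by
  simp [st, step, h]

theorem st_congr {x y : B} (k : ℕ) (h : ∀ i, i ≤ k → x i = y i) : st x k = st y k := by
  induction k with
  | zero => simp [st, tt, h 0 le_rfl]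
  | succ k ih =>
    simp only [st, tt]
    rw [ih fun i hi => h i (by omega), h 0 (by omega), h (k + 1) le_rfl,
      code_congr fun i hi => h i (by omega)]

theorem h_u (x : B) (k : ℕ) : (st x k).h <+: (st x k).u1 ∧ (st x k).h <+: (st x k).u2 := by
  induction k with
  | zero => simp [st]
  | succ k ih =>
    by_cases h : x (k + 1) % 3 = 0
    · rw [st_stay h]; exact ih
    · rw [st_ret h]; exact ⟨List.prefix_append _ _, List.prefix_append _ _⟩

theorem h_base (x : B) (k d c : ℕ) : (st x k).h <+: base (st x k) d c ∧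
    (st x k).h.length < (base (st x k) d c).length := by
  obtain ⟨h1, h2⟩ := h_u x k
  unfold base
  split_ifs
  · exact ⟨h1.trans (List.prefix_append _ _), by have := h1.length_le; simp; omega⟩
  · exact ⟨h2.trans (List.prefix_append _ _), by have := h2.length_le; simp; omega⟩

theorem h_step (x : B) (k : ℕ) : (st x k).h <+: (st x (k + 1)).h := by
  by_cases h : x (k + 1) % 3 = 0
  · rw [st_stay h]
  · rw [st_ret h]; exact (h_base x k _ _).1

theorem h_mono (x : B) {j k : ℕ} (hjk : j ≤ k) : (st x j).h <+: (st x k).h := by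
  induction hjk with
  | refl => exact List.prefix_rfl
  | step _ ih => exact ih.trans (h_step x _)

def Inf (x : B) : Prop := ∀ K, ∃ k, K ≤ k ∧ x (k + 1) % 3 ≠ 0

theorem exists_phi (x : B) : ∃ a, (Inf x → ∀ k, In (st x k).h a) ∧
    ∀ k₀, (∀ k, k₀ ≤ k → x (k + 1) % 3 = 0) → ∀ k, k₀ ≤ k → In (st x k).v a := by
  classical
  by_cases hx : Inf x
  · obtain ⟨a, ha⟩ := chain _ (h_step x)
    refine ⟨a, fun _ => ha, fun k₀ h => ?_⟩
    obtain ⟨k, h1, h2⟩ := hx k₀
    exact absurd (h k h1) h2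
  · have he : ∃ K, ∀ k, K ≤ k → x (k + 1) % 3 = 0 := by
      unfold Inf at hx
      push Not at hx
      exact hx
    obtain ⟨a, ha⟩ := chain (fun k => (st x (Nat.find he + k)).v) (fun k => by
      rw [← add_assoc, st_stay (Nat.find_spec he _ (by omega))]
      exact List.prefix_append _ _)
    refine ⟨a, fun h => absurd h hx, fun k₀ h k hk => ?_⟩
    have : Nat.find he ≤ k₀ := Nat.find_min' he h
    have h2 := ha (k - Nat.find he)
    rwa [Nat.add_sub_cancel' (by omega)] at h2

noncomputable def phi (x : B) : B := (exists_phi x).choose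

theorem phi_inf {x : B} (h : Inf x) (k : ℕ) : In (st x k).h (phi x) :=
  (exists_phi x).choose_spec.1 h k

theorem phi_fin {x : B} {k₀ : ℕ} (h : ∀ k, k₀ ≤ k → x (k + 1) % 3 = 0) {k : ℕ} (hk : k₀ ≤ k) :
    In (st x k).v (phi x) := (exists_phi x).choose_spec.2 k₀ h k hk

theorem not_inf {x : B} (hx : ¬ Inf x) : ∃ K, ∀ k, K ≤ k → x (k + 1) % 3 = 0 := by
  unfold Inf at hx
  push Not at hx
  exact hx

theorem inv (y : B) (K : ℕ) (k : ℕ) (hk : K ≤ k) :
    ((∀ j, K ≤ j → j < k → y (j + 1) % 3 = 0) ∧ (st y k).u1 = (st y K).u1 ∧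
      (st y k).u2 = (st y K).u2 ∧ (st y K).v <+: (st y k).v ∧
      (st y k).v.length = (st y K).v.length + (k - K)) ∨
    ((∃ j, K < j ∧ ((st y K).u1 ++ [code y j] <+: (st y k).h ∨
      (st y K).u2 ++ [code y j] <+: (st y k).h)) ∧
      ∃ j, K < j ∧ tt y ++ [code y j] <+: (st y k).v) := by
  induction hk with
  | refl => exact Or.inl ⟨fun j h1 h2 => by omega, rfl, rfl, List.prefix_rfl, by simp⟩
  | @step k hk ih =>
    have hk' : K ≤ k := hk
    by_cases h : y (k + 1) % 3 = 0
    · rcases ih with ⟨h1, h2, h3, h4, h5⟩ | ⟨h1, j, h2, h3⟩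
      · left
        rw [st_stay h]
        refine ⟨fun j hj hj' => ?_, h2, h3, h4.trans (List.prefix_append _ _), ?_⟩
        · by_cases e : j = k
          · rw [e]; exact h
          · exact h1 j hj (by omega)
        · simp only [List.length_append, List.length_singleton, h5]; omega
      · right
        rw [st_stay h]
        exact ⟨h1, j, h2, h3.trans (List.prefix_append _ _)⟩
    · right
      refine ⟨?_, k + 1, by omega, by rw [st_ret h]⟩
      rcases ih with ⟨-, h2, h3, -, -⟩ | ⟨⟨j, h1, h2⟩, -⟩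
      · refine ⟨k + 1, by omega, ?_⟩
        rw [st_ret h]
        simp only [base, h2, h3]
        split_ifs
        · exact Or.inl List.prefix_rfl
        · exact Or.inr List.prefix_rfl
      · exact ⟨j, h1, h2.imp (fun h' => h'.trans (h_step y k)) (fun h' => h'.trans (h_step y k))⟩

theorem trich (y : B) (K : ℕ) :
    ((∀ j, K ≤ j → y (j + 1) % 3 = 0) ∧ In (st y K).v (phi y)) ∨
    (Inf y ∧ ∃ j, K < j ∧ (In ((st y K).u1 ++ [code y j]) (phi y) ∨
      In ((st y K).u2 ++ [code y j]) (phi y))) ∨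
    (∃ j, K < j ∧ In (tt y ++ [code y j]) (phi y)) := by
  by_cases hy : Inf y
  · obtain ⟨k, hk, hr⟩ := hy K
    rcases inv y K (k + 1) (by omega) with ⟨h1, -⟩ | ⟨⟨j, h1, h2⟩, -⟩
    · exact absurd (h1 k hk (by omega)) hr
    · exact Or.inr (Or.inl ⟨hy, j, h1,
        h2.imp (fun h => (phi_inf hy _).mono h) (fun h => (phi_inf hy _).mono h)⟩)
  · obtain ⟨k₀, h0⟩ := not_inf hy
    rcases inv y K (K + k₀) (by omega) with ⟨h1, -, -, h2, -⟩ | ⟨-, j, h1, h2⟩
    · refine Or.inl ⟨fun j hj => ?_, (phi_fin h0 (by omega)).mono h2⟩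
      by_cases e : j < K + k₀
      · exact h1 j hj e
      · exact h0 j (by omega)
    · exact Or.inr (Or.inr ⟨j, h1, (phi_fin h0 (by omega)).mono h2⟩)

theorem inf_long {x : B} (hx : Inf x) (L : ℕ) :
    ∃ k, L ≤ k ∧ x (k + 1) % 3 ≠ 0 ∧ L ≤ (st x (k + 1)).h.length := by
  induction L with
  | zero =>
    obtain ⟨k, -, h⟩ := hx 0
    exact ⟨k, by omega, h, by omega⟩
  | succ L ih =>
    obtain ⟨k, h1, -, h3⟩ := ih
    obtain ⟨k', h4, h5⟩ := hx (k + 1)
    refine ⟨k', by omega, h5, ?_⟩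
    rw [st_ret h5]
    have := (h_base x k' (x (k' + 1)) (code x (k' + 1))).2
    have := (h_mono x h4).length_le
    simp only
    omega

theorem key (x : B) : ∃ F : List (List ℕ), ∀ L, ∃ K, L ≤ K ∧ ∀ y, (∀ i, i ≤ K → y i = x i) →
    (∀ i, i < L → phi y i = phi x i) ∨ ∃ u ∈ F, ∃ j, L ≤ j ∧ In (u ++ [code y j]) (phi y) := by
  by_cases hx : Inf x
  · refine ⟨[tt x], fun L => ?_⟩
    obtain ⟨k, h1, h2, h3⟩ := inf_long hx L
    refine ⟨k + 1, by omega, fun y hy => ?_⟩
    have e := st_congr (k + 1) hy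
    have et : tt y = tt x := by simp [tt, hy 0 (by omega)]
    by_cases hy' : Inf y
    · left
      intro i hi
      exact (e ▸ phi_inf hy' (k + 1)).agree (phi_inf hx (k + 1)) i (by omega)
    · right
      rcases trich y (k + 1) with ⟨-, h⟩ | ⟨h, -⟩ | ⟨j, h4, h5⟩
      · refine ⟨tt x, by simp, k + 1, by omega, ?_⟩
        rw [st_ret (by rw [hy _ le_rfl]; exact h2), et] at h
        exact h
      · exact absurd h hy'
      · exact ⟨tt x, by simp, j, by omega, et ▸ h5⟩
  · obtain ⟨k₀, h0⟩ := not_inf hx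
    refine ⟨[tt x, (st x k₀).u1, (st x k₀).u2], fun L => ⟨k₀ + L, by omega, fun y hy => ?_⟩⟩
    have e := st_congr (k₀ + L) hy
    have et : tt y = tt x := by simp [tt, hy 0 (by omega)]
    have hi : (st x (k₀ + L)).u1 = (st x k₀).u1 ∧ (st x (k₀ + L)).u2 = (st x k₀).u2 ∧
        L ≤ (st x (k₀ + L)).v.length := by
      clear hy e et
      induction L with
      | zero => simp
      | succ L ih =>
        rw [← add_assoc, st_stay (h0 _ (by omega))]
        refine ⟨ih.1, ih.2.1, ?_⟩
        have := ih.2.2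
        simp; omega
    rcases trich y (k₀ + L) with ⟨-, h⟩ | ⟨-, j, h4, h5⟩ | ⟨j, h4, h5⟩
    · left
      intro i hi'
      exact (e ▸ h).agree (phi_fin h0 (by omega)) i (by omega)
    · right
      rw [e, hi.1, hi.2.1] at h5
      rcases h5 with h5 | h5
      · exact ⟨_, by simp, j, by omega, h5⟩
      · exact ⟨_, by simp, j, by omega, h5⟩
    · exact Or.inr ⟨tt x, by simp, j, by omega, et ▸ h5⟩

theorem closed_ker : IsClosed {p : B × B | phi p.1 = phi p.2} := by
  rw [← isOpen_compl_iff, isOpen_iff_mem_nhds]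
  rintro ⟨x, x'⟩ hne
  have hne' : phi x ≠ phi x' := hne
  obtain ⟨i₀, hi₀⟩ := Function.ne_iff.1 hne'
  have hxx : x ≠ x' := fun h => hne' (by rw [h])
  obtain ⟨i₁, hi₁⟩ := Function.ne_iff.1 hxx
  obtain ⟨F, hF⟩ := key x
  obtain ⟨F', hF'⟩ := key x'
  have : ∃ L, i₀ < L ∧ i₁ < L ∧ ∀ u ∈ F ++ F', u.length < L ∧ phi x u.length < L ∧
      phi x' u.length < L ∧ ∀ c ∈ u, c < L := by
    have h1 : ∀ᶠ L in atTop, ∀ u ∈ (F ++ F').toFinset, u.length < L ∧ phi x u.length < L ∧
        phi x' u.length < L ∧ ∀ c ∈ u.toFinset, c < L := by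
      rw [eventually_all_finset]
      intro u _
      refine (eventually_gt_atTop _).and ((eventually_gt_atTop _).and
        ((eventually_gt_atTop _).and ?_))
      rw [eventually_all_finset]
      exact fun c _ => eventually_gt_atTop _
    obtain ⟨L, h2, h3, h4⟩ := ((eventually_gt_atTop i₀).and ((eventually_gt_atTop i₁).and h1)).exists
    refine ⟨L, h2, h3, fun u hu => ?_⟩
    simpa using h4 u (List.mem_toFinset.2 hu)
  obtain ⟨L, hL0, hL1, hL⟩ := this
  obtain ⟨K, hK, hx⟩ := hF L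
  obtain ⟨K', hK', hx'⟩ := hF' L
  have o1 := dep_open (fun y => ∀ i, i ≤ K → y i = x i) K fun a b h ha i hi => (h i hi) ▸ ha i hi
  have o2 := dep_open (fun y => ∀ i, i ≤ K' → y i = x' i) K'
    fun a b h ha i hi => (h i hi) ▸ ha i hi
  refine mem_of_superset (prod_mem_nhds (o1.mem_nhds fun _ _ => rfl) (o2.mem_nhds fun _ _ => rfl))
    ?_
  rintro ⟨y, y'⟩ ⟨hy, hy'⟩ he
  have he' : phi y = phi y' := he
  rcases hx y hy with h1 | ⟨u, hu, j, hj, h1⟩ <;> rcases hx' y' hy' with h2 | ⟨u', hu', j', hj', h2⟩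
  · exact hi₀ (by rw [← h1 _ hL0, ← h2 _ hL0, he'])
  · obtain ⟨a1, a2, -, -⟩ := hL u' (by simp [hu'])
    have := ((in_snoc _ _ _).1 h2).2
    rw [← he', h1 _ a1] at this
    have := le_code y' j'
    omega
  · obtain ⟨a1, -, a2, -⟩ := hL u (by simp [hu])
    have := ((in_snoc _ _ _).1 h1).2
    rw [he', h2 _ a1] at this
    have := le_code y j
    omega
  · obtain ⟨b1, b2⟩ := (in_snoc _ _ _).1 h1
    obtain ⟨b3, b4⟩ := (in_snoc _ _ _).1 h2
    rw [← he'] at b3 b4
    rcases lt_trichotomy u.length u'.length with h | h | h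
    · have := (hL u' (by simp [hu'])).2.2.2 _ (List.getElem_mem h)
      rw [b3 _ h, b2] at this
      have := le_code y j
      omega
    · rw [h, b4] at b2
      have := code_inj b2.symm i₁ (by omega)
      exact hi₁ ((hy i₁ (by omega)).symm.trans (this.trans (hy' i₁ (by omega))))
    · have := (hL u (by simp [hu])).2.2.2 _ (List.getElem_mem h)
      rw [b1 _ h, b4] at this
      have := le_code y' j'
      omega

end Pool.Agent.H.MP_b0da28_lc
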