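import Pool.Agent.H.MP_b0da28_lc.A

namespace Pool.Agent.H.MP_b0da28_lc

open Set Filter Topology

theorem stay (y b : B) (k₀ : ℕ) (h0 : In (st y k₀).v b)
    (h : ∀ i, y (k₀ + i + 1) = 3 * b ((st y k₀).v.length + i)) : phi y = b := by
  have h1 : ∀ k, k₀ ≤ k → y (k + 1) % 3 = 0 := by
    intro k hk
    obtain ⟨i, rfl⟩ := Nat.exists_eq_add_of_le hk
    rw [h]; omega
  have h2 : ∀ i, In (st y (k₀ + i)).v b ∧ (st y (k₀ + i)).v.length = (st y k₀).v.length + i := by
    intro i
    induction i with
    | zero => exact ⟨h0, rfl⟩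
    | succ i ih =>
      rw [← add_assoc, st_stay (h1 _ (by omega))]
      refine ⟨(in_snoc _ _ _).2 ⟨ih.1, ?_⟩, by simp [ih.2]; omega⟩
      rw [h, ih.2]; omega
  funext i
  exact (phi_fin h1 (k := k₀ + (i + 1)) (by omega)).agree (h2 (i + 1)).1 i (by rw [(h2 _).2]; omega)

noncomputable def enc (p : L3) : ℕ := Encodable.encode p

theorem dec_enc (p : L3) : dec (enc p) = p := Denumerable.ofNat_encode p

noncomputable def iota (a : B) : B
  | 0 => enc ([], [], [])
  | k + 1 => 3 * a k

theorem iota_cont : Continuous iota := by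
  refine continuous_pi fun k => ?_
  cases k with
  | zero => exact continuous_const
  | succ k => exact continuous_const.mul (continuous_apply k)

theorem phi_iota (a : B) : phi (iota a) = a := by
  have : (st (iota a) 0).v = [] := by simp [st, tt, iota, dec_enc]
  refine stay _ _ 0 (by rw [this]; intro i hi; simp at hi) fun i => ?_
  rw [this]
  simp [iota]

theorem inf_gd : IsGδ {x | Inf x} ∧ Dense {x | Inf x} := by
  constructor
  · unfold Inf
    rw [ofPred_forall]
    refine IsGδ.iInter_of_isOpen fun K => ?_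
    rw [ofPred_exists]
    exact isOpen_iUnion fun k => dep_open _ (k + 1) fun x y h hx => by
      rw [← h (k + 1) le_rfl]; exact hx
  · intro x
    rw [mem_closure_iff_nhds]
    intro O hO
    obtain ⟨K, hK⟩ := nhds_cyl hO
    refine ⟨fun i => if i ≤ K then x i else 1, hK _ fun i hi => by simp [hi], fun K' => ?_⟩
    refine ⟨K + K', by omega, ?_⟩
    have : ¬ K + K' + 1 ≤ K := by omega
    simp [this]

theorem baire (n₀ : ℕ) (C : ℕ → Set B) (hC : ∀ m, IsClosed (C m))
    (h : ∀ w, Inf w → w 0 = n₀ → ∃ m, w ∈ C m) :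
    ∃ (m : ℕ) (p : B) (K : ℕ), p 0 = n₀ ∧ ∀ y, (∀ i, i ≤ K → y i = p i) → y ∈ C m := by
  have ho : IsOpen {w : B | w 0 = n₀} := dep_open _ 0 fun x y h hx => h 0 le_rfl ▸ hx
  have hc : IsClosed {w : B | w 0 ≠ n₀} :=
    (isClosed_discrete {n : ℕ | n ≠ n₀}).preimage (f := fun w : B => w 0) (continuous_apply 0)
  have := inf_gd.1.dense_iUnion_interior_of_closed inf_gd.2
    (f := fun m => C m ∪ {w : B | w 0 ≠ n₀}) (fun m => (hC m).union hc) (by
      intro w hw
      by_cases e : w 0 = n₀
      · obtain ⟨m, hm⟩ := h w hw e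
        exact mem_iUnion.2 ⟨m, Or.inl hm⟩
      · exact mem_iUnion.2 ⟨0, Or.inr e⟩)
  obtain ⟨p, hp, hp'⟩ := this.inter_open_nonempty _ ho ⟨fun _ => n₀, rfl⟩
  obtain ⟨m, hm⟩ := mem_iUnion.1 hp'
  obtain ⟨K, hK⟩ := nhds_cyl (mem_interior_iff_mem_nhds.1 hm)
  refine ⟨m, p, K, hp, fun y hy => (hK y hy).resolve_right ?_⟩
  simp only [mem_ofPred_eq, not_not]
  rw [hy 0 (by omega)]
  exact hp

theorem u_start (y : B) (s t : List ℕ) (h : y 0 = enc (s, s, t)) (hy : Inf y) : In s (phi y) := by
  rcases trich y 0 with ⟨h1, -⟩ | ⟨-, j, -, h1⟩ | -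
  · obtain ⟨k, h2, h3⟩ := hy 0
    exact absurd (h1 k h2) h3
  · simp only [st, h, dec_enc, or_self] at h1
    exact h1.mono (List.prefix_append _ _)
  · obtain ⟨k, hk, hr⟩ := hy 0
    rcases inv y 0 (k + 1) (by omega) with ⟨h1, -⟩ | ⟨⟨j, -, h2⟩, -⟩
    · exact absurd (h1 k hk (by omega)) hr
    · have e1 : (st y 0).u1 = s := by simp only [st, h, dec_enc]
      have e2 : (st y 0).u2 = s := by simp only [st, h, dec_enc]
      rw [e1, e2, or_self] at h2
      exact ((phi_inf hy _).mono h2).mono (List.prefix_append _ _)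

theorem u_ext (y : B) (s t : List ℕ) (h : y 0 = enc (s, s, t)) (k : ℕ) :
    s <+: (st y k).u1 := by
  rcases inv y 0 k (by omega) with ⟨-, h1, -⟩ | ⟨⟨j, -, h2⟩, -⟩
  · rw [h1]; simp [st, h, dec_enc]
  · simp only [st, h, dec_enc, or_self] at h2
    exact ((List.prefix_append _ _).trans h2).trans (h_u y k).1

variable {f : B → ℕ → B}

theorem mem_S (hred : ∀ x y, phi x = phi y ↔ range (f x) = range (f y)) (w : B) (n : ℕ) :
    ∃ m, f w m = f (iota (phi w)) n := by
  have := (hred w (iota (phi w))).1 (phi_iota _).symm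
  have h2 : f (iota (phi w)) n ∈ range (f w) := this ▸ mem_range_self n
  exact h2

theorem step1 (hf : Continuous f) (hred : ∀ x y, phi x = phi y ↔ range (f x) = range (f y))
    (n : ℕ) (t₀ : List ℕ) :
    ∃ t₁, t₀ <+: t₁ ∧ ∀ a a', In t₁ a → In t₁ a' → f (iota a) n = f (iota a') n := by
  obtain ⟨m, p, K, hp, hK⟩ := baire (enc (t₀, t₀, []))
    (fun m => closure {w | Inf w ∧ f w m = f (iota (phi w)) n}) (fun _ => isClosed_closure)
    (fun w hw _ => by
      obtain ⟨m, hm⟩ := mem_S hred w n
      exact ⟨m, subset_closure ⟨hw, hm⟩⟩)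
  refine ⟨(st p K).u1 ++ [code p (K + 1)], (u_ext p _ _ hp K).trans (List.prefix_append _ _), ?_⟩
  intro a a' ha ha'
  funext i
  have hloc : ∀ (x : B) (m : ℕ), ∃ K, ∀ y, (∀ j, j ≤ K → y j = x j) → f y m i = f x m i := by
    intro x m
    have : Continuous fun y => f y m i := by fun_prop
    exact nhds_cyl (((isOpen_discrete {f x m i}).preimage this).mem_nhds rfl)
  have hloc' : ∀ a : B, ∃ l, ∀ b, (∀ j, j < l → a j = b j) → f (iota b) n i = f (iota a) n i := by
    intro a
    obtain ⟨l, hl⟩ := hloc (iota a) n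
    refine ⟨l, fun b hb => hl _ fun j hj => ?_⟩
    cases j with
    | zero => rfl
    | succ j => simp only [iota]; rw [hb j (by omega)]
  obtain ⟨l, hl⟩ := hloc' a
  obtain ⟨l', hl'⟩ := hloc' a'
  obtain ⟨r, hr⟩ := ha.ext_tk l
  obtain ⟨r', hr'⟩ := ha'.ext_tk l'
  let g : B := fun j => if j ≤ K then p j else if j = K + 1 then 3 * enc (r, r', []) + 1 else 0
  have hgp : ∀ j, j ≤ K → g j = p j := fun j hj => by simp [g, hj]
  have hg1 : g (K + 1) = 3 * enc (r, r', []) + 1 := by simp [g]
  have hst : ∀ j, (st g (K + 1 + j)).u1 = (st p K).u1 ++ [code p (K + 1)] ++ r ∧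
      (st g (K + 1 + j)).u2 = (st p K).u1 ++ [code p (K + 1)] ++ r' := by
    intro j
    induction j with
    | zero =>
      have e1 : (3 * enc (r, r', []) + 1) % 3 = 1 := by omega
      have e2 : (3 * enc (r, r', []) + 1) / 3 = enc (r, r', []) := by omega
      rw [add_zero, st_ret (by rw [hg1]; omega), hg1, st_congr K hgp,
        code_congr (x := g) (y := p) fun j hj => hgp j (by omega)]
      simp only [base, e1, e2, dec_enc, if_true, and_self]
    | succ j ih =>
      have : g (K + 1 + j + 1) % 3 = 0 := by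
        have e1 : ¬ K + 1 + j + 1 ≤ K := by omega
        have e2 : ¬ K + 1 + j + 1 = K + 1 := by omega
        simp only [g, e1, e2, if_false]
      rw [← add_assoc, st_stay this]
      exact ih
  obtain ⟨J, hJ⟩ := hloc g m
  have side : ∀ d, d % 3 ≠ 0 → ∃ w, f g m i = f (iota (phi w)) n i ∧
      In (if d % 3 = 1 then (st g (K + 1 + J)).u1 else (st g (K + 1 + J)).u2) (phi w) := by
    intro d hd
    let g' : B := fun j => if j ≤ K + 1 + J then g j else d
    have hg' : ∀ j, j ≤ K + 1 + J → g' j = g j := fun j hj => by simp [g', hj]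
    have hcl := hK g' fun j hj => (hg' j (by omega)).trans (hgp j hj)
    have o := dep_open (fun y => ∀ j, j ≤ K + 1 + J + 1 → y j = g' j) (K + 1 + J + 1)
      fun a b h ha j hj => (h j hj) ▸ ha j hj
    obtain ⟨w, hw, hw1, hw2⟩ := mem_closure_iff.1 hcl _ o fun _ _ => rfl
    have hwg : ∀ j, j ≤ K + 1 + J → w j = g j := fun j hj => (hw j (by omega)).trans (hg' j hj)
    have hwd : w (K + 1 + J + 1) = d := by rw [hw _ le_rfl]; simp [g']
    refine ⟨w, by rw [← hw2, hJ w fun j hj => hwg j (by omega)], ?_⟩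
    have := phi_inf hw1 (K + 1 + J + 1)
    rw [st_ret (by rw [hwd]; exact hd), st_congr _ hwg, hwd] at this
    exact this.mono (List.prefix_append _ _)
  obtain ⟨w, e1, h1⟩ := side 1 (by omega)
  obtain ⟨w', e2, h2⟩ := side 2 (by omega)
  simp only [(hst J).1, (hst J).2, hr, hr', in_tk] at h1 h2
  simp only [if_true] at h1
  have h2' : In (tk a' (((st p K).u1 ++ [code p (K + 1)]).length + l')) (phi w') := by
    simpa using h2
  have h1' : In (tk a (((st p K).u1 ++ [code p (K + 1)]).length + l)) (phi w) := by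
    simpa using h1
  rw [in_tk] at h1' h2'
  rw [← hl (phi w) fun j hj => h1' j (by omega), ← hl' (phi w') fun j hj => h2' j (by omega),
    ← e1, ← e2]

theorem step2 (hf : Continuous f) (hred : ∀ x y, phi x = phi y ↔ range (f x) = range (f y))
    (q : B) (s : List ℕ) (hs : ∀ a, In s a → q ∈ range (f (iota a))) (t : List ℕ) :
    ∃ t', t <+: t' ∧ ∀ b, In t' b → q ∈ range (f (iota b)) := by
  obtain ⟨m, p, K, hp, hK⟩ := baire (enc (s, s, t)) (fun m => {w | f w m = q})
    (fun m => isClosed_eq (by fun_prop) continuous_const)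
    (fun w hw h0 => by
      obtain ⟨n, hn⟩ := hs _ (u_start w s t h0 hw)
      obtain ⟨m, hm⟩ := mem_S hred w n
      exact ⟨m, hm.trans hn⟩)
  refine ⟨t ++ [code p (K + 1)], List.prefix_append _ _, fun b hb => ?_⟩
  let w : B := fun j => if j ≤ K then p j else if j = K + 1 then 1 else
    3 * b (t.length + 1 + (j - (K + 2)))
  have hwp : ∀ j, j ≤ K → w j = p j := fun j hj => by simp [w, hj]
  have hw1 : w (K + 1) = 1 := by simp [w]
  have hv : (st w (K + 1)).v = t ++ [code p (K + 1)] := by
    rw [st_ret (by rw [hw1]; omega), code_congr (x := w) (y := p) fun j hj => hwp j (by omega)]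
    simp [tt, hwp 0 (by omega), hp, dec_enc]
  have : phi w = b := by
    refine stay w b (K + 1) (hv ▸ hb) fun i => ?_
    have e1 : ¬ K + 1 + i + 1 ≤ K := by omega
    have e2 : ¬ K + 1 + i + 1 = K + 1 := by omega
    have e3 : K + 1 + i + 1 - (K + 2) = i := by omega
    simp only [w, e1, e2, e3, if_false, hv]
    simp
  rw [← (hred w (iota b)).1 (by rw [this, phi_iota])]
  exact ⟨m, hK w hwp⟩

theorem dense_of (U : Set B) (h : ∀ t, ∃ a, In t a ∧ a ∈ U) : Dense U := by
  intro x
  rw [mem_closure_iff_nhds]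
  intro O hO
  obtain ⟨K, hK⟩ := nhds_cyl hO
  obtain ⟨a, h1, h2⟩ := h (tk x (K + 1))
  exact ⟨a, hK a fun i hi => ((in_tk _ _ _).1 h1 i (by omega)).symm, h2⟩

theorem no_red (hf : Continuous f) (hred : ∀ x y, phi x = phi y ↔ range (f x) = range (f y)) :
    False := by
  have h1 : ∀ᶠ a in residual B, ∀ n, ∃ t, In t a ∧
      ∀ b b', In t b → In t b' → f (iota b) n = f (iota b') n := by
    refine eventually_countable_forall.2 fun n => residual_of_dense_open ?_ (dense_of _ fun t => ?_)
    · rw [ofPred_exists]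
      refine isOpen_iUnion fun t => ?_
      by_cases h : ∀ b b', In t b → In t b' → f (iota b) n = f (iota b') n
      · simpa only [eq_true h, and_true] using open_in t
      · simp [eq_false h]
    · obtain ⟨t₁, h1, h2⟩ := step1 hf hred n t
      exact ⟨pt t₁, (in_pt t₁).mono h1, t₁, in_pt t₁, h2⟩
  have h2 : ∀ᶠ a in residual B, ∀ p : ℕ × List ℕ,
      (∀ b, In p.2 b → f (iota (pt p.2)) p.1 ∈ range (f (iota b))) →
        f (iota (pt p.2)) p.1 ∈ range (f (iota a)) := by
    refine eventually_countable_forall.2 fun p => ?_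
    by_cases h : ∀ b, In p.2 b → f (iota (pt p.2)) p.1 ∈ range (f (iota b))
    · have : {a | ∃ t, In t a ∧ ∀ b, In t b → f (iota (pt p.2)) p.1 ∈ range (f (iota b))} ∈
          residual B := by
        refine residual_of_dense_open ?_ (dense_of _ fun t => ?_)
        · rw [ofPred_exists]
          refine isOpen_iUnion fun t => ?_
          by_cases h : ∀ b, In t b → f (iota (pt p.2)) p.1 ∈ range (f (iota b))
          · simpa only [eq_true h, and_true] using open_in t
          · simp only [eq_false h, and_false, ofPred_false, isOpen_empty]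
        · obtain ⟨t₁, h1, h2⟩ := step2 hf hred _ _ h t
          exact ⟨pt t₁, (in_pt t₁).mono h1, t₁, in_pt t₁, h2⟩
      filter_upwards [this]
      rintro a ⟨t, h1, h2⟩ _
      exact h2 a h1
    · exact Eventually.of_forall fun a h' => absurd h' h
  have hd := dense_of_mem_residual (h1.and h2)
  obtain ⟨a, ha, ha1, ha2⟩ := hd.inter_open_nonempty _ (open_in [0]) ⟨_, in_pt _⟩
  obtain ⟨b, hb, hb1, hb2⟩ := hd.inter_open_nonempty _ (open_in [1]) ⟨_, in_pt _⟩
  have sub : ∀ a b : B, (∀ n, ∃ t, In t a ∧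
      ∀ b b', In t b → In t b' → f (iota b) n = f (iota b') n) → (∀ p : ℕ × List ℕ,
      (∀ b, In p.2 b → f (iota (pt p.2)) p.1 ∈ range (f (iota b))) →
        f (iota (pt p.2)) p.1 ∈ range (f (iota b))) → range (f (iota a)) ⊆ range (f (iota b)) := by
    rintro a b h1 h2 _ ⟨n, rfl⟩
    obtain ⟨t, h3, h4⟩ := h1 n
    rw [h4 a (pt t) h3 (in_pt t)]
    exact h2 (n, t) fun c hc => ⟨n, h4 _ _ hc (in_pt t)⟩
  have := (hred (iota a) (iota b)).2 (Subset.antisymm (sub a b ha1 hb2) (sub b a hb1 ha2))
  rw [phi_iota, phi_iota] at this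
  have e1 := ha 0 (by simp)
  have e2 := hb 0 (by simp)
  simp only [List.getElem_cons_zero] at e1 e2
  rw [this, ← e2] at e1
  exact absurd e1 (by omega)

theorem dep_meas (P : B → Prop) (k : ℕ) (h : ∀ x y, (∀ i, i ≤ k → x i = y i) → P x → P y) :
    Measurable P := measurableSet_setOfPred.1 (dep_open P k h).measurableSet

theorem meas_phi : Measurable phi := by
  refine measurable_pi_lambda _ fun i => measurable_to_countable' fun c => ?_
  have e : (fun x => phi x i) ⁻¹' {c} = {x | (Inf x ∧ ∃ k, (st x k).h[i]? = some c) ∨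
      ∃ k, (∀ j, k ≤ j → x (j + 1) % 3 = 0) ∧ (st x k).v[i]? = some c} := by
    ext x
    simp only [mem_preimage, mem_singleton_iff, mem_ofPred_eq]
    constructor
    · rintro rfl
      by_cases hx : Inf x
      · obtain ⟨k, -, -, h⟩ := inf_long hx (i + 1)
        refine Or.inl ⟨hx, k + 1, ?_⟩
        rw [List.getElem?_eq_getElem (by omega), phi_inf hx (k + 1) i (by omega)]
      · obtain ⟨k₀, h0⟩ := not_inf hx
        have : i < (st x (k₀ + (i + 1))).v.length := by
          rcases inv x k₀ (k₀ + (i + 1)) (by omega) with ⟨-, -, -, -, h⟩ | ⟨⟨j, -, h⟩, -⟩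
          · omega
          · exfalso
            have hh : ∀ l, (st x (k₀ + l)).h = (st x k₀).h := by
              intro l
              induction l with
              | zero => rfl
              | succ l ih => rw [← add_assoc, st_stay (h0 _ (by omega))]; exact ih
            rw [hh] at h
            have a1 := (h_u x k₀).1.length_le
            have a2 := (h_u x k₀).2.length_le
            rcases h with h | h <;> have := h.length_le <;> simp at this <;> omega
        refine Or.inr ⟨k₀ + (i + 1), fun j hj => h0 j (by omega), ?_⟩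
        rw [List.getElem?_eq_getElem this, phi_fin h0 (by omega) i this]
    · rintro (⟨hx, k, h⟩ | ⟨k, h0, h⟩)
      · obtain ⟨h1, h2⟩ := List.getElem?_eq_some_iff.1 h
        rw [← phi_inf hx k i h1, h2]
      · obtain ⟨h1, h2⟩ := List.getElem?_eq_some_iff.1 h
        rw [← phi_fin h0 le_rfl i h1, h2]
  rw [e, measurableSet_setOfPred]
  refine Measurable.or (Measurable.and (measurableSet_setOfPred.1 inf_gd.1.measurableSet)
    (Measurable.exists fun k => dep_meas _ k fun x y h hx => st_congr k h ▸ hx))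
    (Measurable.exists fun k => Measurable.and (Measurable.forall fun j => ?_)
      (dep_meas _ k fun x y h hx => st_congr k h ▸ hx))
  exact dep_meas _ (j + 1) fun x y h hx => h (j + 1) le_rfl ▸ hx

end Pool.Agent.H.MP_b0da28_lc
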